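import Pool.Agent.Lib.MP_bd7e44_co.H96PL
import Pool.Agent.Lib.MP_bd7e44_co.H96FF
import Pool.Agent.Lib.MP_bd7e44_co.H96Rep
import Pool.Agent.Lib.MP_bd7e44_co.H96Mom
import Pool.Agent.Lib.MP_bd7e44_co.H96Cdf
import Pool.Agent.Lib.MP_bd7e44_co.H96Sh
import Pool.Agent.Lib.MP_bd7e44_co.H96LC
import Pool.Agent.Lib.MP_bd7e44_co.H96Word
import Pool.Agent.Lib.MP_bd7e44_co.H96Range
import Pool.Agent.Lib.MP_bd7e44_co.H96Pad
import Pool.Agent.Lib.MP_bd7e44_co.H96Gap

namespace Pool.Agent.Results.MP_bd7e44_co.LargeRange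

open Pool.Agent.Lib.MP_bd7e44_co.LR

/-- For every `δ < 1 / e` there is `K` such that every finite poset with an element incomparable
to at least `K` elements has distinct `x, y` for which the fraction of linear extensions placing
`x` above `y` lies between `δ` and `1 - δ`. -/
theorem result (δ : ℝ) (hδ : δ < Real.exp (-1)) :
    ∃ K : ℕ, ∀ (X : Type) [Fintype X] [PartialOrder X],
      (∃ a : X, K ≤ {b : X | ¬ a ≤ b ∧ ¬ b ≤ a}.ncard) →
      ∃ x y : X, x ≠ y ∧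
        δ ≤ (({f : X ≃ Fin (Fintype.card X) | StrictMono (⇑f) ∧ f y < f x}.ncard : ℕ) : ℝ) /
            (({f : X ≃ Fin (Fintype.card X) | StrictMono (⇑f)}.ncard : ℕ) : ℝ) ∧
        (({f : X ≃ Fin (Fintype.card X) | StrictMono (⇑f) ∧ f y < f x}.ncard : ℕ) : ℝ) /
            (({f : X ≃ Fin (Fintype.card X) | StrictMono (⇑f)}.ncard : ℕ) : ℝ) ≤ 1 - δ := by
  classical
  obtain ⟨K, hK⟩ := main_of (mom rep) (cdf pl (mom rep)) (sh ff (mom rep)) lc1 lc2 gap
    (range word) pad δ hδ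
  refine ⟨K, fun X _ _ hX => ?_⟩
  obtain ⟨x, y, hxy, h⟩ := hK X hX
  have e : Pr (LE X) (fun f => f y < f x) =
      (({f : X ≃ Fin (Fintype.card X) | StrictMono (⇑f) ∧ f y < f x}.ncard : ℕ) : ℝ) /
        (({f : X ≃ Fin (Fintype.card X) | StrictMono (⇑f)}.ncard : ℕ) : ℝ) := by
    unfold Pr
    rw [← Set.ncard_coe_finset, ← Set.ncard_coe_finset]
    congr 3
    · ext f
      simp [mem_LE]
    · ext f
      simp [mem_LE]
  exact ⟨x, y, hxy, e ▸ h⟩

end Pool.Agent.Results.MP_bd7e44_co.LargeRange
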